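import Pool.Agent.Helper92.UB.Basic
import Pool.Agent.Helper5.UB.Rho

/-!
# Project UB (MP_246ef5), module UB-V3: the gain of a clustered tuple
-/

set_option autoImplicit false

namespace Pool.Agent.Helper65.CG

open scoped Classical
open Pool.Agent.Helper65.CliqueGame

variable {n q m : ℕ}

namespace GaLow

theorem mem_prs {PP : Finset (Fin q)} {p : Fin q × Fin q} (h : p ∈ prs PP) : p.1 < p.2 :=
  (Finset.mem_filter.1 h).2

/-- the index pairs of a class pair -/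
noncomputable def QQ (D : Clu q m) (p : Fin q × Fin q) : Finset (Fin q × Fin q) :=
  D.mem p.1 ×ˢ D.mem p.2

theorem mem_QQ {D : Clu q m} {p x : Fin q × Fin q} :
    x ∈ QQ D p ↔ (x.1 ∈ D.G ∧ D.cls x.1 = p.1) ∧ x.2 ∈ D.G ∧ D.cls x.2 = p.2 := by
  unfold QQ Clu.mem
  rw [Finset.mem_product, Finset.mem_filter, Finset.mem_filter]

theorem join_eq (D : Clu q m) (Z : Fin q → Fin n) (p : Fin q × Fin q) :
    join (D.cv Z p.1) (D.cv Z p.2) = (QQ D p).image (fun x => s(Z x.1, Z x.2)) := by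
  ext e
  unfold join Clu.cv QQ
  simp only [Finset.mem_image, Finset.mem_product, Prod.exists]
  constructor
  · rintro ⟨a, b, ⟨⟨i, hi, rfl⟩, ⟨j, hj, rfl⟩⟩, rfl⟩
    exact ⟨i, j, ⟨hi, hj⟩, rfl⟩
  · rintro ⟨i, j, ⟨hi, hj⟩, rfl⟩
    exact ⟨_, _, ⟨⟨i, hi, rfl⟩, ⟨j, hj, rfl⟩⟩, rfl⟩

theorem inj {D : Clu q m} {Z : Fin q → Fin n} (hZ : Function.Injective Z) {p p' x y : Fin q × Fin q}
    (hp : p.1 < p.2) (hp' : p'.1 < p'.2) (hx : x ∈ QQ D p) (hy : y ∈ QQ D p')
    (h : s(Z x.1, Z x.2) = s(Z y.1, Z y.2)) : x = y ∧ p = p' := by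
  rw [mem_QQ] at hx hy
  rw [Sym2.eq_iff] at h
  rcases h with ⟨h1, h2⟩ | ⟨h1, h2⟩
  · have e1 := hZ h1
    have e2 := hZ h2
    refine ⟨Prod.ext e1 e2, Prod.ext ?_ ?_⟩
    · rw [← hx.1.2, ← hy.1.2, e1]
    · rw [← hx.2.2, ← hy.2.2, e2]
  · have e1 := hZ h1
    have e2 := hZ h2
    exfalso
    have a1 : p.1 = p'.2 := by rw [← hx.1.2, ← hy.2.2, e1]
    have a2 : p.2 = p'.1 := by rw [← hx.2.2, ← hy.1.2, e2]
    rw [a1, a2] at hp
    exact absurd hp (not_lt.2 hp'.le)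

theorem cnt_join {D : Clu q m} {Z : Fin q → Fin n} (hZ : Function.Injective Z)
    (ℓ : Sym2 (Fin n) → ℕ) {p : Fin q × Fin q} (hp : p.1 < p.2) (a : ℕ) :
    cnt ℓ (join (D.cv Z p.1) (D.cv Z p.2)) a =
      ((QQ D p).filter (fun x => ℓ s(Z x.1, Z x.2) = a)).card := by
  unfold cnt
  rw [join_eq, Finset.filter_image, Finset.card_image_of_injOn]
  intro x hx y hy h
  have hx' := Finset.mem_filter.1 (Finset.mem_coe.1 hx)
  have hy' := Finset.mem_filter.1 (Finset.mem_coe.1 hy)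
  exact (inj hZ hp hp hx'.1 hy'.1 h).1

theorem cnt_le {ℓ : Sym2 (Fin n) → ℕ} (hℓ : Lab m ℓ) (U : Finset (Sym2 (Fin n))) {a : ℕ}
    (ha : 2 ≤ a) : cnt ℓ U a ≤ m := by
  refine le_trans (Finset.card_le_card ?_) (hℓ.size a ha)
  intro e he
  exact Finset.mem_filter.2 ⟨Finset.mem_univ _, (Finset.mem_filter.1 he).2⟩

theorem cnt_mono (ℓ : Sym2 (Fin n) → ℕ) {U U' : Finset (Sym2 (Fin n))} (h : U ⊆ U') (a : ℕ) :
    cnt ℓ U a ≤ cnt ℓ U' a :=
  Finset.card_le_card (Finset.filter_subset_filter _ h)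

/-- a label which is not bad occurs in one class pair only -/
theorem log_ge {ℓ : Sym2 (Fin n) → ℕ} {Z : Fin q → Fin n} (hZ : Function.Injective Z)
    (D : Clu q m) (PP : Finset (Fin q)) {a : ℕ} (ha : ¬ BadLab ℓ Z D.G D.cls a) :
    ∑ p ∈ prs PP, Real.logb 2 (1 + (cnt ℓ (join (D.cv Z p.1) (D.cv Z p.2)) a : ℝ)) ≤
      Real.logb 2 (1 + (cnt ℓ (UU (D.cv Z) (prs PP)) a : ℝ)) := by
  by_cases h : ∃ p ∈ prs PP, 0 < cnt ℓ (join (D.cv Z p.1) (D.cv Z p.2)) a
  · obtain ⟨p, hp, hc⟩ := h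
    rw [Finset.sum_eq_single_of_mem p hp]
    · refine Real.logb_le_logb_of_le (by norm_num) (by positivity) ?_
      have : cnt ℓ (join (D.cv Z p.1) (D.cv Z p.2)) a ≤ cnt ℓ (UU (D.cv Z) (prs PP)) a := by
        refine cnt_mono ℓ ?_ a
        intro e he
        unfold UU
        exact Finset.mem_biUnion.2 ⟨p, hp, he⟩
      have h' : (cnt ℓ (join (D.cv Z p.1) (D.cv Z p.2)) a : ℝ) ≤
        cnt ℓ (UU (D.cv Z) (prs PP)) a := by exact_mod_cast this
      linarith
    · intro p' hp' hne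
      have h0 : cnt ℓ (join (D.cv Z p'.1) (D.cv Z p'.2)) a = 0 := by
        by_contra h0
        have h0' := Nat.pos_of_ne_zero h0
        rw [cnt_join hZ ℓ (mem_prs hp)] at hc
        rw [cnt_join hZ ℓ (mem_prs hp')] at h0'
        obtain ⟨x, hx⟩ := Finset.card_pos.1 hc
        obtain ⟨y, hy⟩ := Finset.card_pos.1 h0'
        rw [Finset.mem_filter, mem_QQ] at hx hy
        refine ha ⟨x.1, hx.1.1.1, x.2, hx.1.2.1, y.1, hy.1.1.1, y.2, hy.1.2.1, hx.2, hy.2, ?_, ?_,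
          ?_, ?_⟩
        · rw [hx.1.1.2, hx.1.2.2]
          exact (mem_prs hp).ne
        · rw [hy.1.1.2, hy.1.2.2]
          exact (mem_prs hp').ne
        · rw [hx.1.1.2, hx.1.2.2, hy.1.1.2, hy.1.2.2]
          rintro ⟨h1, h2⟩
          exact hne (Prod.ext h1.symm h2.symm)
        · rw [hx.1.1.2, hx.1.2.2, hy.1.1.2, hy.1.2.2]
          rintro ⟨h1, h2⟩
          have b1 := mem_prs hp
          have b2 := mem_prs hp'
          rw [h1, h2] at b1
          exact absurd b1 (not_lt.2 b2.le)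
      rw [h0]
      simp
  · push Not at h
    rw [Finset.sum_eq_zero]
    · exact Real.logb_nonneg (by norm_num) (by simp)
    · intro p hp
      have := h p hp
      have h0 : cnt ℓ (join (D.cv Z p.1) (D.cv Z p.2)) a = 0 := by omega
      rw [h0]
      simp

/-- number of index pairs with a label in a set, summed over the class pairs -/
theorem sum_filter (D : Clu q m) (PP : Finset (Fin q)) (pr : Fin q × Fin q → Prop)
    [DecidablePred pr] :
    ∑ p ∈ prs PP, ((QQ D p).filter pr).card = (((prs PP).biUnion (QQ D)).filter pr).card := by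
  rw [Finset.filter_biUnion, Finset.card_biUnion]
  intro p hp p' hp' hne
  show Disjoint ((QQ D p).filter pr) ((QQ D p').filter pr)
  rw [Finset.disjoint_left]
  intro x hx hx'
  rw [Finset.mem_filter, mem_QQ] at hx hx'
  exact hne (Prod.ext (hx.1.1.2.symm.trans hx'.1.1.2) (hx.1.2.2.symm.trans hx'.1.2.2))

theorem free_le {ℓ : Sym2 (Fin n) → ℕ} {κ : ℕ} {Z : Fin q → Fin n} (hZ : NearT ℓ κ Z)
    (D : Clu q m) (PP : Finset (Fin q)) :
    (((prs PP).biUnion (QQ D)).filter (fun x => ℓ s(Z x.1, Z x.2) = 0)).card ≤ κ := by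
  refine le_trans ?_ hZ.2.2
  refine Finset.card_le_card_of_injOn (fun x => (min x.1 x.2, max x.1 x.2)) ?_ ?_
  · intro x hx
    have hx := Finset.mem_filter.1 (Finset.mem_coe.1 hx)
    obtain ⟨p, hp, hxp⟩ := Finset.mem_biUnion.1 hx.1
    rw [mem_QQ] at hxp
    have hne : x.1 ≠ x.2 := by
      intro h
      have := mem_prs hp
      rw [← hxp.1.2, ← hxp.2.2, h] at this
      exact lt_irrefl _ this
    refine Finset.mem_coe.2 (Finset.mem_filter.2 ⟨Finset.mem_univ _, ?_, ?_⟩)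
    · exact min_lt_max.2 hne
    · show ℓ s(Z (min x.1 x.2), Z (max x.1 x.2)) = 0
      rcases lt_or_gt_of_ne hne with h | h
      · rw [min_eq_left h.le, max_eq_right h.le]
        exact hx.2
      · rw [min_eq_right h.le, max_eq_left h.le, Sym2.eq_swap]
        exact hx.2
  · intro x hx y hy h
    have hx := (Finset.mem_filter.1 (Finset.mem_coe.1 hx)).1
    have hy := (Finset.mem_filter.1 (Finset.mem_coe.1 hy)).1
    obtain ⟨p, hp, hxp⟩ := Finset.mem_biUnion.1 hx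
    obtain ⟨p', hp', hyp⟩ := Finset.mem_biUnion.1 hy
    refine (inj hZ.1 (mem_prs hp) (mem_prs hp') hxp hyp ?_).1
    simp only [Prod.mk.injEq] at h
    have : s(x.1, x.2) = s(y.1, y.2) := by
      rw [Sym2.eq_iff]
      rcases le_total x.1 x.2 with h1 | h1 <;> rcases le_total y.1 y.2 with h2 | h2
      · rw [min_eq_left h1, max_eq_right h1, min_eq_left h2, max_eq_right h2] at h
        exact Or.inl h
      · rw [min_eq_left h1, max_eq_right h1, min_eq_right h2, max_eq_left h2] at h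
        exact Or.inr h
      · rw [min_eq_right h1, max_eq_left h1, min_eq_left h2, max_eq_right h2] at h
        exact Or.inr ⟨h.2, h.1⟩
      · rw [min_eq_right h1, max_eq_left h1, min_eq_right h2, max_eq_left h2] at h
        exact Or.inl ⟨h.2, h.1⟩
    rw [Sym2.eq_iff] at this ⊢
    rcases this with ⟨h1, h2⟩ | ⟨h1, h2⟩
    · exact Or.inl ⟨by rw [h1], by rw [h2]⟩
    · exact Or.inr ⟨by rw [h1], by rw [h2]⟩

theorem lab_le {ℓ : Sym2 (Fin n) → ℕ} (hℓ : Lab m ℓ) {Z : Fin q → Fin n}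
    (hZ : Function.Injective Z) (D : Clu q m) (PP : Finset (Fin q)) {a : ℕ} (ha : 2 ≤ a) :
    (((prs PP).biUnion (QQ D)).filter (fun x => ℓ s(Z x.1, Z x.2) = a)).card ≤ m := by
  refine le_trans ?_ (hℓ.size a ha)
  refine Finset.card_le_card_of_injOn (fun x => s(Z x.1, Z x.2)) ?_ ?_
  · intro x hx
    have hx := Finset.mem_filter.1 (Finset.mem_coe.1 hx)
    exact Finset.mem_coe.2 (Finset.mem_filter.2 ⟨Finset.mem_univ _, hx.2⟩)
  · intro x hx y hy h
    have hx := (Finset.mem_filter.1 (Finset.mem_coe.1 hx)).1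
    have hy := (Finset.mem_filter.1 (Finset.mem_coe.1 hy)).1
    obtain ⟨p, hp, hxp⟩ := Finset.mem_biUnion.1 hx
    obtain ⟨p', hp', hyp⟩ := Finset.mem_biUnion.1 hy
    exact (inj hZ (mem_prs hp) (mem_prs hp') hxp hyp h).1

end GaLow

open GaLow in
theorem ga_lower (hm : 1 ≤ m) {ℓ : Sym2 (Fin n) → ℕ} (hℓ : Lab m ℓ) {κ b d : ℕ}
    {Z : Fin q → Fin n} (hZ : NearT ℓ κ Z) {vt : ℕ → Fin (2 * m) → Fin n} {D : Clu q m}
    (hD : CluOK ℓ vt Z D d b) (PP : Finset (Fin q)) :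
    ∑ p ∈ prs PP, rho m ((D.mem p.1).card * (D.mem p.2).card) - κ - m * b ≤
      ga ℓ (UU (D.cv Z) (prs PP)) := by
  set Bd := (Finset.range (n ^ 2 + 2)).filter (fun a => 2 ≤ a ∧ BadLab ℓ Z D.G D.cls a) with hBd
  set T := (Finset.range (n ^ 2 + 2)).filter (fun a => 2 ≤ a ∧ ¬ BadLab ℓ Z D.G D.cls a) with hT
  set T' := (Finset.range (n ^ 2 + 2)).filter (fun a => 2 ≤ a) with hT'
  have hsub : T ⊆ T' := by
    intro a ha
    rw [hT, Finset.mem_filter] at ha
    exact Finset.mem_filter.2 ⟨ha.1, ha.2.1⟩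
  set U := UU (D.cv Z) (prs PP) with hU
  have h1 : ga ℓ U = ∑ a ∈ T', Real.logb 2 (1 + (cnt ℓ U a : ℝ)) := by
    refine ga_eq ℓ U T' (fun a ha => (Finset.mem_filter.1 ha).2) ?_
    intro e _ h2
    refine Finset.mem_filter.2 ⟨Finset.mem_range.2 ?_, h2⟩
    have := hℓ.bd e
    omega
  have h2 : ∑ a ∈ T, Real.logb 2 (1 + (cnt ℓ U a : ℝ)) ≤ ga ℓ U := by
    rw [h1]
    refine Finset.sum_le_sum_of_subset_of_nonneg hsub fun a _ _ => ?_
    exact Real.logb_nonneg (by norm_num) (by simp)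
  have h3 : ∑ p ∈ prs PP, ∑ a ∈ T, Real.logb 2 (1 + (cnt ℓ (join (D.cv Z p.1) (D.cv Z p.2)) a : ℝ)) ≤
      ga ℓ U := by
    rw [Finset.sum_comm]
    refine le_trans (Finset.sum_le_sum fun a ha => ?_) h2
    exact log_ge hZ.1 D PP (Finset.mem_filter.1 ha).2.2
  -- the number of index pairs with a label which is not in `T`
  set t : Fin q × Fin q → ℕ := fun p =>
    ((QQ D p).filter (fun x => ¬ ℓ s(Z x.1, Z x.2) ∈ T)).card with ht
  have h4 : ∀ p ∈ prs PP, rho m ((D.mem p.1).card * (D.mem p.2).card) - t p ≤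
      ∑ a ∈ T, Real.logb 2 (1 + (cnt ℓ (join (D.cv Z p.1) (D.cv Z p.2)) a : ℝ)) := by
    intro p hp
    have e1 : ∑ a ∈ T, cnt ℓ (join (D.cv Z p.1) (D.cv Z p.2)) a =
        ((QQ D p).filter (fun x => ℓ s(Z x.1, Z x.2) ∈ T)).card := by
      rw [Finset.sum_congr rfl (fun a _ => cnt_join hZ.1 ℓ (mem_prs hp) a)]
      rw [Finset.card_eq_sum_card_fiberwise (f := fun x : Fin q × Fin q => ℓ s(Z x.1, Z x.2))
        (t := T)]
      · refine Finset.sum_congr rfl fun a ha => ?_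
        rw [Finset.filter_filter]
        congr 1
        refine Finset.filter_congr fun x _ => ?_
        constructor
        · intro h
          exact ⟨by rw [h]; exact ha, h⟩
        · exact fun h => h.2
      · intro x hx
        exact Finset.mem_coe.2 (Finset.mem_filter.1 (Finset.mem_coe.1 hx)).2
    have e2 : (D.mem p.1).card * (D.mem p.2).card - t p =
        ∑ a ∈ T, cnt ℓ (join (D.cv Z p.1) (D.cv Z p.2)) a := by
      have htp : t p = ((QQ D p).filter (fun x => ¬ ℓ s(Z x.1, Z x.2) ∈ T)).card := rfl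
      rw [e1, htp]
      have := Finset.card_filter_add_card_filter_not (s := QQ D p)
        (fun x => ℓ s(Z x.1, Z x.2) ∈ T)
      have hq : (QQ D p).card = (D.mem p.1).card * (D.mem p.2).card := Finset.card_product _ _
      omega
    refine le_trans (rho_sub hm _ (t p)) ?_
    rw [e2]
    exact rho_sum hm T _ fun a ha => cnt_le hℓ _ (Finset.mem_filter.1 ha).2.1
  have h5 : (∑ p ∈ prs PP, t p) ≤ κ + m * b := by
    rw [ht]
    simp only
    rw [sum_filter D PP (fun x => ¬ ℓ s(Z x.1, Z x.2) ∈ T)]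
    set R := (prs PP).biUnion (QQ D) with hR
    have hsub2 : R.filter (fun x => ¬ ℓ s(Z x.1, Z x.2) ∈ T) ⊆
        R.filter (fun x => ℓ s(Z x.1, Z x.2) = 0) ∪
          Bd.biUnion (fun a => R.filter (fun x => ℓ s(Z x.1, Z x.2) = a)) := by
      intro x hx
      rw [Finset.mem_filter] at hx
      refine Finset.mem_union.2 ?_
      by_cases h0 : ℓ s(Z x.1, Z x.2) = 0
      · exact Or.inl (Finset.mem_filter.2 ⟨hx.1, h0⟩)
      · refine Or.inr (Finset.mem_biUnion.2 ⟨ℓ s(Z x.1, Z x.2), ?_,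
          Finset.mem_filter.2 ⟨hx.1, rfl⟩⟩)
        have h1' : ℓ s(Z x.1, Z x.2) ≠ 1 := hZ.2.1 x.1 x.2
        have h2' : 2 ≤ ℓ s(Z x.1, Z x.2) := by omega
        have h3' : ℓ s(Z x.1, Z x.2) ∈ Finset.range (n ^ 2 + 2) := by
          have := hℓ.bd s(Z x.1, Z x.2)
          exact Finset.mem_range.2 (by omega)
        refine Finset.mem_filter.2 ⟨h3', h2', ?_⟩
        by_contra hb
        exact hx.2 (Finset.mem_filter.2 ⟨h3', h2', hb⟩)
    refine le_trans (Finset.card_le_card hsub2) (le_trans (Finset.card_union_le _ _) ?_)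
    refine add_le_add (free_le hZ D PP) (le_trans Finset.card_biUnion_le ?_)
    refine le_trans (Finset.sum_le_card_nsmul _ _ m fun a ha => ?_) ?_
    · exact lab_le hℓ hZ.1 D PP (Finset.mem_filter.1 ha).2.1
    · rw [smul_eq_mul, mul_comm]
      exact Nat.mul_le_mul_left m hD.bad
  have h6 : ∑ p ∈ prs PP, (rho m ((D.mem p.1).card * (D.mem p.2).card) - t p) ≤ ga ℓ U :=
    le_trans (Finset.sum_le_sum h4) h3
  rw [Finset.sum_sub_distrib] at h6
  have h7 : (∑ p ∈ prs PP, (t p : ℝ)) ≤ κ + m * b := by exact_mod_cast h5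
  linarith

end Pool.Agent.Helper65.CG
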